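import Mathlib
import Pool.Agent.Lib.MP_b7840d_al.Defs
import Pool.Agent.Lib.MP_b7840d_al.Dim2

set_option autoImplicit false

namespace Pool.Agent.Results.MP_b7840d_al.AllMaps

open Pool.Agent.Lib.MP_b7840d_al

/-- Let `A, As` be a tridiagonal pair on `V` (over any field), with orderings as in the problem.
Then `δ = d`; the eigenvalues `θ_0, ..., θ_d` of `A` satisfy a recurrence with some scalar `β`;
string bases exist, and `dim V_i` is the number of strings through the position `i`.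
For every string basis `e` and every such `β`, a linear map `X` satisfies
`X V*_i ⊆ V*_0 + ... + V*_i` and `X V_i ⊆ V_{i-1} + V_i + V_{i+1}` for all `i` if and only if
`X e_{j,i} = ∑_k (x_{jk,i} e_{k,i} + y_{jk,i} e_{k,i-1})` for coefficient sequences of the explicit
form `Block`. The dimension of the space of these maps is
`∑_i ρ_i (ρ_i + ρ_{i+1} - ρ_{i+2} - ρ_{i+3})` with `ρ_i = dim V_i`. -/
theorem result {K V : Type*} [Field K] [AddCommGroup V] [Module K V] [FiniteDimensional K V]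
    {A As : Module.End K V} {d δ : ℕ} {θ θs : ℤ → K}
    (h : IsTridiagonalPair A As d δ θ θs) :
    δ = d ∧
    (∃ β : K, ∀ i : ℤ, 0 ≤ i → i + 3 ≤ d →
      θ (i + 3) = (β + 1) * θ (i + 2) - (β + 1) * θ (i + 1) + θ i) ∧
    (∃ (J : Type) (_ : Fintype J) (r : J → ℕ) (e : J → ℤ → V),
      IsStringBasis A As d δ θ θs r e) ∧
    (∀ (J : Type) [Fintype J] (r : J → ℕ) (e : J → ℤ → V),
      IsStringBasis A As d δ θ θs r e →
      (∀ i, Module.finrank K (eigSp A d θ i) = Nat.card {j // (r j : ℤ) ≤ i ∧ i ≤ d - r j}) ∧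
      ∀ β : K, (∀ i : ℤ, 0 ≤ i → i + 3 ≤ d →
        θ (i + 3) = (β + 1) * θ (i + 2) - (β + 1) * θ (i + 1) + θ i) →
      ∀ X : Module.End K V, X ∈ XSpace A As d δ θ θs ↔
        ∃ x y : J → J → ℤ → K, (∀ j k, Block β θ d (r j) (r k) (x j k) (y j k)) ∧
          ∀ j i, (r j : ℤ) ≤ i → i ≤ d - r j →
            X (e j i) = ∑ k, (x j k i • e k i + y j k i • e k (i - 1))) ∧
    (Module.finrank K (XSpace A As d δ θ θs) : ℤ) =
      ∑ i ∈ Finset.Icc (0 : ℤ) d, (Module.finrank K (eigSp A d θ i) : ℤ) *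
        (Module.finrank K (eigSp A d θ i) + Module.finrank K (eigSp A d θ (i + 1)) -
          Module.finrank K (eigSp A d θ (i + 2)) - Module.finrank K (eigSp A d θ (i + 3))) := by
  classical
  obtain ⟨β, hβ⟩ := exists_beta h
  obtain ⟨J, hJ, r, e, b, h1, h2, h3, h4, h5⟩ := exists_string_basis h
  refine ⟨diam_eq h, ⟨β, hβ⟩, ⟨J, hJ, r, e, ⟨h1, h2, h4, h5, ?_, ?_⟩⟩, ?_,
    finrank_XSpace_formula h ⟨h.ord.injOn, h1, h2, h3, h5⟩ h4 hβ⟩
  · have : (fun p : Idx d r => e p.1.1 p.1.2) = b := by funext p; exact (h3 p).symm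
    rw [this]; exact b.linearIndependent
  · have : (fun p : Idx d r => e p.1.1 p.1.2) = b := by funext p; exact (h3 p).symm
    rw [this]; exact b.span_eq
  · intro J _ r e hS
    set b : Module.Basis (Idx d r) K V := Module.Basis.mk hS.linearIndependent hS.span.ge with hb
    have S : StrBasis A d θ r e b := ⟨h.ord.injOn, hS.two_mul_le, hS.eq_zero,
      fun p => by rw [hb, Module.Basis.mk_apply], hS.action⟩
    refine ⟨fun i => ?_, fun β hβ X => mem_XSpace_iff h S hS.mem hβ X⟩
    rw [finrank_eigSp_eq h S hS.mem i, Nat.card_eq_fintype_card, Fintype.card_subtype,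
      Finset.card_filter]

end Pool.Agent.Results.MP_b7840d_al.AllMaps
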